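import Pool.Agent.Work.MP_2482e1_an.Defs
import Pool.Agent.Work.MP_2482e1_an.Final

/-!
# Sharp coefficient bounds for the Carathéodory family in the ball

For all `n ≥ 2` and `m ≥ 2`, the sharp bound for `‖P_m‖` over the Carathéodory family `M` of the
Euclidean unit ball of `ℂⁿ` is `C_{m,n} = (m+1)^{(m+1)/2} / m^{m/2}`, and it is attained (by
`h(z) = z + C_{m,n} z_1^m e_2`).

Idea of the upper bound: for `‖A‖² + ‖B‖² = 1` and `q(ζ) = 1 + ⟨B, A⟩ ζ^{m-1}` the disc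
`z(ζ) = ζ (A + ζ^{m-1} B) / q(ζ)` stays in the closed unit ball, `|q|² \bar z` has a pole of
order `m` at `0`, and the mean of `|q|² Re ⟨h(r z), z⟩ ≥ 0` over the unit circle equals
`r + r^m Re ⟨P_m(A), B⟩`.
-/

namespace Pool.Agent.Results.MP_2482e1_an.SharpCoefficientBound

open Pool.Agent.Work.MP_2482e1_an

/-- `C_{m,n} = (m+1)^{(m+1)/2} / m^{m/2}` for all `n, m ≥ 2`, and the supremum is attained. -/
theorem result (n m : ℕ) (hn : 2 ≤ n) (hm : 2 ≤ m) :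
    coeffConst m n = ((m : ℝ) + 1) ^ (((m : ℝ) + 1) / 2) / (m : ℝ) ^ ((m : ℝ) / 2) ∧
      IsGreatest {x : ℝ | ∃ h ∈ caratheodoryFamily n, x = homNorm h m}
        (((m : ℝ) + 1) ^ (((m : ℝ) + 1) / 2) / (m : ℝ) ^ ((m : ℝ) / 2)) := by
  have h := main n m hn hm
  rw [K_eq_rpow (by omega)] at h
  exact ⟨h.csSup_eq, h⟩

end Pool.Agent.Results.MP_2482e1_an.SharpCoefficientBound
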